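import Pool.Agent.Helper17.OD.GoalsSO

/-!
# Packet HCN of project OD: hulls are sets
-/

namespace Pool.Agent.Helper17.OD.PkHCN

open Set

/-- A natural number leaf. -/
def IsN (t : T) : Prop := ∃ n : ℕ, t = .nat n

/-- Availability with tree arguments. -/
def AvT (q u e : T) : Prop := ∃ c : Code, u = Tr.ofCode c ∧ av q c e

/-- The rule. -/
def Stp (k a : O) (q : T) (B : Set T) (X : T → Prop) (y : T) : Prop :=
  IsN y ∨ (y.IsOrd ∧ y ∈ B ∧ y.llt (.ord a)) ∨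
  (∃ s ∈ D (Iio k), ∃ t ∈ D (Iio k), X s ∧ X t ∧ y = .pr s t) ∨
  (∃ t ∈ D (Iio k), X t ∧ y = t.fst) ∨
  (∃ t ∈ D (Iio k), X t ∧ y = t.snd) ∨
  (∃ b ∈ D (Iio k), ∃ u ∈ D (Iio k), ∃ e ∈ D (Iio k), X b ∧ X e ∧ b.llt (.ord a) ∧
    IsWT b u e y) ∨
  (∃ u ∈ D (Iio k), ∃ e ∈ D (Iio k), X e ∧ AvT q u e ∧ IsWT (.ord a) u e y)

theorem stp_mono {k a : O} {q : T} {B : Set T} {X Y : T → Prop} (h : ∀ t, X t → Y t) {y : T}
    (hy : Stp k a q B X y) : Stp k a q B Y y := by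
  rcases hy with hy | hy | ⟨s, hs, t, ht, h1, h2, h3⟩ | ⟨t, ht, h1, h2⟩ | ⟨t, ht, h1, h2⟩ |
    ⟨b, hb, u, hu, e, he, h1, h2, h3, h4⟩ | ⟨u, hu, e, he, h1, h2, h3⟩
  · exact Or.inl hy
  · exact Or.inr (Or.inl hy)
  · exact Or.inr (Or.inr (Or.inl ⟨s, hs, t, ht, h _ h1, h _ h2, h3⟩))
  · exact Or.inr (Or.inr (Or.inr (Or.inl ⟨t, ht, h _ h1, h2⟩)))
  · exact Or.inr (Or.inr (Or.inr (Or.inr (Or.inl ⟨t, ht, h _ h1, h2⟩))))
  · exact Or.inr (Or.inr (Or.inr (Or.inr (Or.inr (Or.inl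
      ⟨b, hb, u, hu, e, he, h _ h1, h _ h2, h3, h4⟩)))))
  · exact Or.inr (Or.inr (Or.inr (Or.inr (Or.inr (Or.inr ⟨u, hu, e, he, h _ h1, h2, h3⟩)))))

theorem stp_fin {k a : O} {q : T} {B : Set T} {X : T → Prop} {y : T}
    (hy : Stp k a q B X y) : ∃ F : Finset T, (∀ t ∈ F, X t) ∧ Stp k a q B (fun t => t ∈ F) y := by
  classical
  rcases hy with hy | hy | ⟨s, hs, t, ht, h1, h2, h3⟩ | ⟨t, ht, h1, h2⟩ | ⟨t, ht, h1, h2⟩ |
    ⟨b, hb, u, hu, e, he, h1, h2, h3, h4⟩ | ⟨u, hu, e, he, h1, h2, h3⟩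
  · exact ⟨∅, by simp, Or.inl hy⟩
  · exact ⟨∅, by simp, Or.inr (Or.inl hy)⟩
  · exact ⟨{s, t}, by simp [h1, h2], Or.inr (Or.inr (Or.inl
      ⟨s, hs, t, ht, by simp, by simp, h3⟩))⟩
  · exact ⟨{t}, by simp [h1], Or.inr (Or.inr (Or.inr (Or.inl ⟨t, ht, by simp, h2⟩)))⟩
  · exact ⟨{t}, by simp [h1], Or.inr (Or.inr (Or.inr (Or.inr (Or.inl ⟨t, ht, by simp, h2⟩))))⟩
  · exact ⟨{b, e}, by simp [h1, h2], Or.inr (Or.inr (Or.inr (Or.inr (Or.inr (Or.inl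
      ⟨b, hb, u, hu, e, he, by simp, by simp, h3, h4⟩)))))⟩
  · exact ⟨{e}, by simp [h1], Or.inr (Or.inr (Or.inr (Or.inr (Or.inr (Or.inr
      ⟨u, hu, e, he, by simp, h2, h3⟩)))))⟩

theorem ofCode_inj : ∀ c d : Code, (Tr.ofCode c : T) = Tr.ofCode d → c = d := by
  intro c
  induction c with
  | nat n => intro d hd; cases d with
    | nat m => simpa [Tr.ofCode, Tr.map] using hd
    | ord a => exact a.elim
    | pr s t => simp [Tr.ofCode, Tr.map] at hd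
  | ord a => exact a.elim
  | pr s t hs ht => intro d hd; cases d with
    | nat m => simp [Tr.ofCode, Tr.map] at hd
    | ord a => exact a.elim
    | pr s' t' =>
      simp only [Tr.ofCode, Tr.map, Tr.pr.injEq] at hd
      rw [hs s' hd.1, ht t' hd.2]

theorem ofCode_mem (c : Code) (A : Set O) : (Tr.ofCode c : T) ∈ D A := by
  have : (Tr.ofCode c : T).leaves = ∅ := by
    unfold Tr.ofCode
    induction c with
    | nat n => simp [Tr.map, Tr.leaves]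
    | ord a => exact a.elim
    | pr s t hs ht => simp [Tr.map, Tr.leaves, hs, ht]
  intro x hx
  rw [this] at hx
  exact hx.elim

theorem lmem_mem {x : T} {A : Set O} : ∀ {l : T}, x.lmem l → l ∈ D A → x ∈ D A := by
  intro l
  induction l with
  | nat n => exact fun h => h.elim
  | ord a => exact fun h => h.elim
  | pr s t _ ih =>
    rintro (rfl | h) hl
    · exact (pr_mem.1 hl).1
    · exact ih h (pr_mem.1 hl).2

theorem thm (hTRD : G_TRD) (hTRE : G_TRE) (hDLG : G_DLG) (hCLA : G_CLA) (hTDC2 : G_TDC2) :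
    G_HCN := by
  intro k S S' hS a ha q hq B hB
  haveI := hS
  obtain ⟨-, hIsW, hTD⟩ := hTRD k S S' hS
  obtain ⟨-, -, hlmem, -, -, hInD, -, hnat, -, -⟩ := hTRE k S S' hS
  have hAv : SD k S S' (fun e _ => AvT e.fst e.snd.fst e.snd.snd) := by
    refine hTD (fun e => AvT e.fst e.snd.fst e.snd.snd) ?_
    exact hTDC2.2.2.2.1 (fun e => e.fst) (fun e => e.snd.fst) (fun e => e.snd.snd)
      ⟨.pr (.nat 0) (.nat 0), fun _ => rfl⟩ ⟨.pr (.nat 0) (.pr (.nat 1) (.nat 0)), fun _ => rfl⟩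
      ⟨.pr (.nat 1) (.pr (.nat 1) (.nat 0)), fun _ => rfl⟩
  have hN : SD k S S' (fun e _ => IsN e) := hnat
  set A : Set O := {x | Tr.ord x ∈ B} with hA
  set P : T → Prop := TCl a (av q) A with hP
  have hPD : ∀ y, P y → y ∈ D (Iio a) := by
    intro y hy
    exact D_mono (hCLA a (av q) A).2.1 (((hCLA a (av q) A).1 y).1 hy)
  have hak : D (Iio a) ⊆ D (Iio k) := D_mono (Iio_subset_Iio ha.le)
  have hPk : ∀ y, P y → y ∈ D (Iio k) := fun y hy => hak (hPD y hy)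
  have hclosed : ∀ y, Stp k a q B P y → P y := by
    rintro y (⟨n, rfl⟩ | ⟨h1, h2, h3⟩ | ⟨s, hs, t, ht, h1, h2, rfl⟩ | ⟨t, ht, h1, rfl⟩ |
      ⟨t, ht, h1, rfl⟩ | ⟨b, hb, u, hu, e, he, h1, h2, h3, c, φ, rfl, rfl, h5, h6⟩ |
      ⟨u, hu, e, he, h1, ⟨c, rfl, h2⟩, b, φ, h3, h4, h5, h6⟩)
    · exact TCl.nat n
    · cases y with
      | nat n => exact h1.elim
      | pr s t => exact h1.elim
      | ord x => exact TCl.base h2 h3
    · exact TCl.pr h1 h2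
    · exact TCl.fst h1
    · exact TCl.snd h1
    · exact TCl.inner h1 h3 h2 h5 h6
    · obtain rfl : a = b := by simpa using h3
      obtain rfl := ofCode_inj c φ h4
      exact TCl.top h1 h2 h6
  have hleast : ∀ X : T → Prop, (∀ y, Stp k a q B X y → X y) → ∀ y, P y → X y := by
    intro X hX y hy
    induction hy with
    | nat n => exact hX _ (Or.inl ⟨n, rfl⟩)
    | base h1 h2 => exact hX _ (Or.inr (Or.inl ⟨trivial, h1, h2⟩))
    | @pr s t h1 h2 h3 h4 =>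
      exact hX _ (Or.inr (Or.inr (Or.inl ⟨s, hPk _ h1, t, hPk _ h2, h3, h4, rfl⟩)))
    | @fst t h1 h2 =>
      exact hX _ (Or.inr (Or.inr (Or.inr (Or.inl ⟨t, hPk _ h1, h2, rfl⟩))))
    | @snd t h1 h2 =>
      exact hX _ (Or.inr (Or.inr (Or.inr (Or.inr (Or.inl ⟨t, hPk _ h1, h2, rfl⟩)))))
    | @inner b φ e x h1 h2 h3 h4 h5 h6 h7 =>
      exact hX _ (Or.inr (Or.inr (Or.inr (Or.inr (Or.inr (Or.inl
        ⟨.ord b, hPk _ h1, Tr.ofCode φ, ofCode_mem _ _, e, hPk _ h3, h6, h7, h2, b, φ, rfl,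
          rfl, h4, h5⟩))))))
    | @top φ e x h1 h2 h3 h4 =>
      exact hX _ (Or.inr (Or.inr (Or.inr (Or.inr (Or.inr (Or.inr
        ⟨Tr.ofCode φ, ofCode_mem _ _, e, hPk _ h1, h4, ⟨φ, rfl, h2⟩, a, φ, rfl, rfl,
          hPD _ h1, h3⟩))))))
  have hchar := hDLG (Stp k a q B) (fun X Y h y hy => stp_mono h hy)
    (fun X y hy => stp_fin hy) P hclosed hleast (Iio a) hPD
  have rInD : ∀ s t : T → T, ST k s → ST k t → SD k S S' (fun e _ => InD (s e) (t e)) :=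
    fun s t hs ht => SD.app2 (R := InD) hInD hs ht
  have rlmem : ∀ s t : T → T, ST k s → ST k t → SD k S S' (fun e _ => (s e).lmem (t e)) :=
    fun s t hs ht => SD.app2 (R := fun x y => x.lmem y) hlmem hs ht
  have rIsN : ∀ s : T → T, ST k s → SD k S S' (fun e _ => IsN (s e)) :=
    fun s hs => SD.app1 (R := IsN) hN hs
  have rAv : ∀ s t r : T → T, ST k s → ST k t → ST k r →
      SD k S S' (fun e _ => AvT (s e) (t e) (r e)) :=
    fun s t r hs ht hr => SD.app3 (R := AvT) hAv hs ht hr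
  have rIsW : ∀ s t r x : T → T, ST k s → ST k t → ST k r → ST k x →
      SD k S S' (fun e _ => IsWT (s e) (t e) (r e) (x e)) :=
    fun s t r x hs ht hr hx => SD.app4 (R := IsWT) hIsW hs ht hr hx
  have rq : ST k (fun _ => q) := ST.const hq
  have hSD : SD k S S' (fun y _ => ∃ l ∈ D (Iio k), InD (.ord a) l ∧
      (∃ n ∈ D (Iio k), IsN n ∧ (Tr.pr n y).lmem l) ∧
      ∀ n ∈ D (Iio k), ∀ z ∈ D (Iio k), IsN n → (Tr.pr n z).lmem l →
        Stp k a q B (fun t => ∃ m ∈ D (Iio k), IsN m ∧ m.llt n ∧ (Tr.pr m t).lmem l) z) := by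
    clear hTD
    unfold Stp
    beta_reduce
    apply_rules (maxDepth := 2000) [SD.exT, SD.allT, SD.exS, SD.allS, SD.isOrd, SD.llt, SD.mem, SD.eq, SD.not,
      SD.and, SD.or, SD.iff, SD.imp, ST.id, ST.fst, ST.snd, ST.pr, ST.nat, ST.ordc, SV.var,
      SV.par, rInD, rlmem, rIsN, rAv, rIsW, rq]
  refine SOM.of_SD (k := k) (S := S) ha hPD (hSD.congr fun y hy σ hσ => ?_)
  show _ ↔ P y
  rw [hchar y]
  constructor
  · rintro ⟨l, hl, ⟨b, hb, hl'⟩, ⟨n, hn, ⟨m, rfl⟩, hnl⟩, h⟩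
    obtain rfl : a = b := by simpa using hb
    refine ⟨l, hl', ⟨m, hnl⟩, fun n z hz => ?_⟩
    refine stp_mono ?_ (h (.nat n) (nat_mem _ _) z
      (pr_mem.1 (lmem_mem hz hl)).2 ⟨n, rfl⟩ hz)
    rintro t ⟨_, _, ⟨j, rfl⟩, h2, h3⟩
    exact ⟨j, h2, h3⟩
  · rintro ⟨l, hl, ⟨m, hnl⟩, h⟩
    refine ⟨l, hak hl, ⟨a, rfl, hl⟩, ⟨.nat m, nat_mem _ _, ⟨m, rfl⟩, hnl⟩, ?_⟩
    rintro _ hn z hz ⟨n, rfl⟩ hnz
    refine stp_mono ?_ (h n z hnz)
    rintro t ⟨j, h2, h3⟩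
    exact ⟨.nat j, nat_mem _ _, ⟨j, rfl⟩, h2, h3⟩

end Pool.Agent.Helper17.OD.PkHCN
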